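import Pool.Agent.K3h74.GL.Stm

set_option autoImplicit false

namespace Pool.Agent.K3h6.GL

open MeasureTheory Set Filter Topology Pool.Agent.K3h74.GL
open scoped ENNReal NNReal

theorem re_bound (h t z y : ℝ) (hh : 0 < h) (h1 : 3 * h ≤ z - t) (h2 : z - t ≤ 6 * h)
    (h3 : h ≤ y) (h4 : y ≤ 2 * h) :
    1 / (320 * h ^ 2) ≤ ((((t : ℂ) - (⟨z, y⟩ : ℂ)) ^ 2)⁻¹).re := by
  have e1 : (((t : ℂ) - (⟨z, y⟩ : ℂ)) ^ 2).re = (t - z) ^ 2 - y ^ 2 := by
    rw [pow_two, Complex.mul_re]
    simp
    ring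
  have e2 : Complex.normSq (((t : ℂ) - (⟨z, y⟩ : ℂ)) ^ 2) = ((t - z) ^ 2 + y ^ 2) ^ 2 := by
    rw [map_pow, Complex.normSq_apply]
    simp
    ring
  rw [Complex.inv_re, e1, e2]
  have a1 : 9 * h ^ 2 ≤ (t - z) ^ 2 := by nlinarith
  have a2 : (t - z) ^ 2 ≤ 36 * h ^ 2 := by nlinarith
  have a3 : y ^ 2 ≤ 4 * h ^ 2 := by nlinarith
  have a4 : 0 < (t - z) ^ 2 + y ^ 2 := by nlinarith [sq_nonneg y, sq_pos_of_pos hh]
  have a5 : ((t - z) ^ 2 + y ^ 2) ^ 2 ≤ (40 * h ^ 2) ^ 2 := by
    apply pow_le_pow_left₀ a4.le; linarith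
  have a6 : 0 < h ^ 2 := by positivity
  rw [div_le_div_iff₀ (by positivity) (by positivity)]
  calc 1 * ((t - z) ^ 2 + y ^ 2) ^ 2 ≤ (40 * h ^ 2) ^ 2 := by linarith
    _ = (5 * h ^ 2) * (320 * h ^ 2) := by ring
    _ ≤ ((t - z) ^ 2 - y ^ 2) * (320 * h ^ 2) := by
      apply mul_le_mul_of_nonneg_right _ (by positivity)
      linarith

section

variable (c h M : ℝ) (f : ℝ → ℝ)

theorem f_int (hf : Measurable f) (hf0 : ∀ t, 0 ≤ f t) (hfM : ∀ t, f t ≤ M)
    (hs : ∀ t, t ∉ I c h → f t = 0) : Integrable f := by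
  have h1 : IntegrableOn f (I c h) := by
    refine Measure.integrableOn_of_bounded (M := M) ?_ hf.aestronglyMeasurable ?_
    · unfold I; simp
    · refine ae_of_all _ fun t => ?_
      rw [Real.norm_eq_abs, abs_of_nonneg (hf0 t)]
      exact hfM t
  exact (integrableOn_iff_integrable_of_support_subset (fun t ht => by
    by_contra hc
    exact ht (hs t hc))).1 h1

theorem grad_lower (hPOI : S_POI) (hh : 0 < h) (hf : Measurable f) (hf0 : ∀ t, 0 ≤ f t)
    (hfM : ∀ t, f t ≤ M) (hs : ∀ t, t ∉ I c h → f t = 0) (z y : ℝ)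
    (hz : z ∈ Icc (c + 4 * h) (c + 5 * h)) (hy : y ∈ Icc h (2 * h)) :
    ((∫ t, f t) / (320 * Real.pi * h ^ 2)) ^ 2 ≤ gradSq f z y := by
  have hfi := f_int c h M f hf hf0 hfM hs
  have hi1 : Integrable (fun t => f t / (1 + t ^ 2)) := by
    refine hfi.mono (hf.div (by fun_prop)).aestronglyMeasurable (ae_of_all _ fun t => ?_)
    rw [norm_div]
    apply div_le_self (norm_nonneg _)
    rw [Real.norm_eq_abs, abs_of_nonneg (by positivity)]
    nlinarith [sq_nonneg t]
  obtain ⟨Φ, hΦ1, hΦ2, hΦ3⟩ := hPOI f hf hi1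
  have hy0 : 0 < y := lt_of_lt_of_le hh hy.1
  have hd := (hΦ1 ⟨z, y⟩ hy0).deriv
  have hg := hΦ3 ⟨z, y⟩ hy0
  simp only at hg
  rw [hg, hd]
  set ζ : ℂ := ⟨z, y⟩ with hζ
  have hne : ∀ t : ℝ, (t : ℂ) - ζ ≠ 0 := by
    intro t h0
    have := congrArg Complex.im h0
    simp [hζ] at this
    linarith
  have hnorm : ∀ t : ℝ, y ^ 2 ≤ ‖((t : ℂ) - ζ) ^ 2‖ := by
    intro t
    rw [norm_pow]
    apply pow_le_pow_left₀ hy0.le
    have := Complex.abs_im_le_norm ((t : ℂ) - ζ)
    simp [hζ] at this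
    rwa [abs_of_pos hy0] at this
  have hi2 : Integrable (fun t : ℝ => (f t : ℂ) / ((t : ℂ) - ζ) ^ 2) := by
    refine (hfi.const_mul (1 / y ^ 2)).mono ?_ (ae_of_all _ fun t => ?_)
    · refine Measurable.aestronglyMeasurable ?_
      fun_prop
    · rw [norm_div, norm_mul, Complex.norm_real]
      rw [Real.norm_eq_abs (1 / y ^ 2), abs_of_pos (by positivity)]
      rw [div_eq_inv_mul, one_div]
      apply mul_le_mul_of_nonneg_right _ (norm_nonneg _)
      exact inv_anti₀ (by positivity) (hnorm t)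
  have hre : (1 / (320 * h ^ 2)) * ∫ t, f t ≤ (∫ t : ℝ, (f t : ℂ) / ((t : ℂ) - ζ) ^ 2).re := by
    have e1 := Complex.reCLM.integral_comp_comm hi2
    simp only [Complex.reCLM_apply] at e1
    rw [← e1, ← integral_const_mul]
    apply integral_mono (hfi.const_mul _)
    · exact Complex.reCLM.integrable_comp hi2
    · intro t
      simp only
      by_cases ht : t ∈ I c h
      · have hb := re_bound h t z y hh (by
          unfold I at ht; rw [mem_Icc] at ht hz; linarith [ht.2, hz.1]) (by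
          unfold I at ht; rw [mem_Icc] at ht hz; linarith [ht.1, hz.2]) hy.1 hy.2
        have e3 : ((f t : ℂ) / ((t : ℂ) - ζ) ^ 2).re = f t * ((((t : ℂ) - ζ) ^ 2)⁻¹).re := by
          rw [div_eq_mul_inv, Complex.re_ofReal_mul]
        rw [e3, mul_comm]
        exact mul_le_mul_of_nonneg_left hb (hf0 t)
      · rw [hs t ht]; simp
  have hre2 : (∫ t, f t) / (320 * Real.pi * h ^ 2) ≤
      (((1 / Real.pi : ℝ) : ℂ) * ∫ t : ℝ, (f t : ℂ) / ((t : ℂ) - ζ) ^ 2).re := by
    rw [Complex.re_ofReal_mul]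
    calc (∫ t, f t) / (320 * Real.pi * h ^ 2) =
        (1 / Real.pi) * ((1 / (320 * h ^ 2)) * ∫ t, f t) := by
          field_simp
      _ ≤ _ := mul_le_mul_of_nonneg_left hre (by positivity)
  have hF0 : 0 ≤ ∫ t, f t := integral_nonneg hf0
  refine pow_le_pow_left₀ (by positivity) ?_ 2
  exact hre2.trans ((le_abs_self _).trans (Complex.abs_re_le_norm _))

theorem gstar_lower (hPOI : S_POI) (l : ℝ) (hl : 0 < l) (hh : 0 < h) (hf : Measurable f)
    (hf0 : ∀ t, 0 ≤ f t) (hfM : ∀ t, f t ≤ M) (hs : ∀ t, t ∉ I c h → f t = 0) (x : ℝ) :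
    ENNReal.ofReal (6 ^ (-(l / 2)) / (320 * Real.pi) * (h / (|x - c| + h)) ^ (l / 2) *
      ((∫ t, f t) / h)) ≤ gstar l f x := by
  have hF0 : 0 ≤ ∫ t, f t := integral_nonneg hf0
  have hK0 : 0 < h / (|x - c| + h) := by positivity
  set A : ℝ := 6 ^ (-(l / 2)) / (320 * Real.pi) * (h / (|x - c| + h)) ^ (l / 2) *
      ((∫ t, f t) / h) with hA
  have hA0 : 0 ≤ A := by positivity
  set B : ℝ := (h / (|x - c| + h) / 6) ^ l * ((∫ t, f t) / (320 * Real.pi * h ^ 2)) ^ 2 with hB
  have hAB : A ^ 2 = B * h * h := by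
    rw [hA, hB, Real.div_rpow hK0.le (by norm_num)]
    have e1 : ((h / (|x - c| + h)) ^ (l / 2)) ^ 2 = (h / (|x - c| + h)) ^ l := by
      rw [← Real.rpow_natCast, ← Real.rpow_mul hK0.le]; norm_num
    have e2 : ((6 : ℝ) ^ (-(l / 2))) ^ 2 = (6 ^ l)⁻¹ := by
      rw [← Real.rpow_natCast, ← Real.rpow_mul (by norm_num), ← Real.rpow_neg (by norm_num)]
      congr 1; push_cast; ring
    rw [mul_pow, mul_pow, div_pow, e1, e2]
    field_simp
  have hmain : ENNReal.ofReal (A ^ 2) ≤ ∫⁻ z, ∫⁻ y in Ioi (0 : ℝ),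
      ENNReal.ofReal ((y / (|x - z| + y)) ^ l * gradSq f z y) := by
    calc ENNReal.ofReal (A ^ 2) = ∫⁻ z in Icc (c + 4 * h) (c + 5 * h),
          ∫⁻ y in Icc h (2 * h), ENNReal.ofReal B := by
          rw [hAB]
          simp only [lintegral_const, Measure.restrict_apply MeasurableSet.univ, univ_inter,
            Real.volume_Icc]
          rw [show 2 * h - h = h by ring, show c + 5 * h - (c + 4 * h) = h by ring,
            ENNReal.ofReal_mul' hh.le, ENNReal.ofReal_mul' hh.le]
      _ ≤ ∫⁻ z in Icc (c + 4 * h) (c + 5 * h), ∫⁻ y in Icc h (2 * h),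
          ENNReal.ofReal ((y / (|x - z| + y)) ^ l * gradSq f z y) := by
          refine setLIntegral_mono' measurableSet_Icc fun z hz => ?_
          refine setLIntegral_mono' measurableSet_Icc fun y hy => ?_
          apply ENNReal.ofReal_le_ofReal
          have hy0 : 0 < y := lt_of_lt_of_le hh hy.1
          apply mul_le_mul _ (grad_lower c h M f hPOI hh hf hf0 hfM hs z y hz hy)
            (by positivity) (by positivity)
          apply Real.rpow_le_rpow (by positivity) _ hl.le
          rw [div_div, div_le_div_iff₀ (by positivity) (by positivity)]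
          have h1 : |x - z| ≤ |x - c| + 5 * h := by
            have : |x - z| ≤ |x - c| + |c - z| := abs_sub_le _ _ _
            have h2 : |c - z| ≤ 5 * h := by
              rw [abs_le]; constructor <;> linarith [hz.1, hz.2]
            linarith
          have h3 : h * |x - z| ≤ y * (|x - c| + 5 * h) :=
            mul_le_mul hy.1 h1 (abs_nonneg _) hy0.le
          nlinarith [abs_nonneg (x - c), mul_nonneg hy0.le (abs_nonneg (x - c)), hy.1,
            mul_pos hy0 hh]
      _ ≤ ∫⁻ z in Icc (c + 4 * h) (c + 5 * h), ∫⁻ y in Ioi (0 : ℝ),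
          ENNReal.ofReal ((y / (|x - z| + y)) ^ l * gradSq f z y) := by
          refine lintegral_mono fun z => lintegral_mono_set ?_
          intro y hy
          exact lt_of_lt_of_le hh hy.1
      _ ≤ _ := setLIntegral_le_lintegral _ _
  unfold gstar
  have h2 : ENNReal.ofReal A = ENNReal.ofReal (A ^ 2) ^ (1 / 2 : ℝ) := by
    rw [ENNReal.ofReal_rpow_of_nonneg (by positivity) (by norm_num)]
    congr 1
    rw [← Real.sqrt_eq_rpow, Real.sqrt_sq hA0]
  rw [h2]
  exact ENNReal.rpow_le_rpow hmain (by norm_num)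

end

theorem UJ_fin (U : ℝ → ℝ) (hU : LocallyIntegrable U) (c h : ℝ) :
    ∫⁻ x in I c h, ENNReal.ofReal (U x) ≠ ∞ := by
  have h1 : IntegrableOn U (I c h) := hU.integrableOn_isCompact isCompact_Icc
  exact (Integrable.lintegral_lt_top h1).ne

/-- the constant -/
noncomputable def c1 (l : ℝ) : ℝ := 6 ^ (-(l / 2)) / (320 * Real.pi)

theorem c1_pos (l : ℝ) : 0 < c1 l := by unfold c1; positivity

theorem dagger (hPOI : S_POI) (l p : ℝ) (hl : 0 < l) (hp : 1 < p) (U : ℝ → ℝ)
    (hU0 : ∀ x, 0 ≤ U x) (hU : LocallyIntegrable U) (C : ℝ≥0)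
    (hC : ∀ f : ℝ → ℝ, Measurable f → ∫⁻ x, ENNReal.ofReal (|f x| ^ p * U x) ≠ ∞ →
      ∫⁻ x, gstar l f x ^ p * ENNReal.ofReal (U x) ≤
        C * ∫⁻ x, ENNReal.ofReal (|f x| ^ p * U x)) (c h M : ℝ) (f : ℝ → ℝ)
    (hh : 0 < h) (hf : Measurable f) (hf0 : ∀ t, 0 ≤ f t) (hfM : ∀ t, f t ≤ M)
    (hs : ∀ t, t ∉ I c h → f t = 0) :
    ENNReal.ofReal (c1 l ^ p * ((∫ t, f t) / h) ^ p) *
        ∫⁻ x, ENNReal.ofReal ((h / (|x - c| + h)) ^ (l * p / 2) * U x) ≤
      C * ∫⁻ x in I c h, ENNReal.ofReal (f x ^ p * U x) := by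
  have hF0 : 0 ≤ ∫ t, f t := integral_nonneg hf0
  have hM : 0 ≤ M := (hf0 0).trans (hfM 0)
  have hJm : MeasurableSet (I c h) := measurableSet_Icc
  have e1 : ∫⁻ x, ENNReal.ofReal (|f x| ^ p * U x) =
      ∫⁻ x in I c h, ENNReal.ofReal (f x ^ p * U x) := by
    rw [← lintegral_indicator hJm]
    apply lintegral_congr
    intro x
    by_cases hx : x ∈ I c h
    · rw [indicator_of_mem hx, abs_of_nonneg (hf0 x)]
    · rw [indicator_of_notMem hx, hs x hx, abs_zero, Real.zero_rpow (by linarith)]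
      simp
  have hfin : ∫⁻ x in I c h, ENNReal.ofReal (f x ^ p * U x) ≠ ∞ := by
    have h1 : ∫⁻ x in I c h, ENNReal.ofReal (f x ^ p * U x) ≤
        ENNReal.ofReal (M ^ p) * ∫⁻ x in I c h, ENNReal.ofReal (U x) := by
      rw [← lintegral_const_mul' _ _ ENNReal.ofReal_ne_top]
      apply lintegral_mono
      intro x
      simp only
      rw [← ENNReal.ofReal_mul (by positivity)]
      apply ENNReal.ofReal_le_ofReal
      exact mul_le_mul_of_nonneg_right (Real.rpow_le_rpow (hf0 x) (hfM x) (by linarith)) (hU0 x)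
    exact ne_top_of_le_ne_top (ENNReal.mul_ne_top ENNReal.ofReal_ne_top (UJ_fin U hU c h)) h1
  have h2 := hC f hf (by rw [e1]; exact hfin)
  rw [e1] at h2
  refine le_trans ?_ h2
  rw [← lintegral_const_mul' _ _ ENNReal.ofReal_ne_top]
  apply lintegral_mono
  intro x
  simp only
  have hK0 : 0 < h / (|x - c| + h) := by positivity
  have h3 := gstar_lower c h M f hPOI l hl hh hf hf0 hfM hs x
  have h4 := ENNReal.rpow_le_rpow h3 (z := p) (by linarith)
  have hc := c1_pos l
  rw [ENNReal.ofReal_rpow_of_nonneg (by positivity) (by linarith)] at h4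
  refine le_trans (le_of_eq ?_) (mul_le_mul_left h4 _)
  change _ = ENNReal.ofReal ((c1 l * (h / (|x - c| + h)) ^ (l / 2) * ((∫ t, f t) / h)) ^ p) * _
  rw [← ENNReal.ofReal_mul (by positivity), ← ENNReal.ofReal_mul (by positivity)]
  congr 1
  rw [Real.mul_rpow (by positivity) (by positivity), Real.mul_rpow (by positivity) (by positivity),
    ← Real.rpow_mul hK0.le, show l / 2 * p = l * p / 2 by ring]
  ring

theorem t_NEC (hPOI : S_POI) : S_NEC := by
  intro l p hl1 hl2 hp1 hp2 U hU0 hU hStar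
  obtain ⟨C, hC⟩ := hStar
  have hc := c1_pos l
  set κ : ℝ := c1 l ^ p * 2 ^ p with hκ
  have hκ0 : 0 < κ := by positivity
  set κ' : ℝ := 2 ^ (l * p / 2) / c1 l ^ p with hκ'
  have hκ'0 : 0 < κ' := by positivity
  refine ⟨Real.toNNReal κ⁻¹ * C + Real.toNNReal κ' * C, ?_⟩
  intro c h hh
  have hJm : MeasurableSet (I c h) := measurableSet_Icc
  set UJ := ∫⁻ x in I c h, ENNReal.ofReal (U x) with hUJ
  have hUJfin : UJ ≠ ∞ := UJ_fin U hU c h
  set Aint := ∫⁻ x, ENNReal.ofReal ((h / (|x - c| + h)) ^ (l * p / 2) * U x) with hAint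
  have hdag := dagger hPOI l p (by linarith) hp1 U hU0 hU C hC c h
  constructor
  · -- first part
    have h1 := hdag 1 ((I c h).indicator (fun _ => 1)) hh
      (measurable_const.indicator hJm)
      (fun t => indicator_nonneg (fun _ _ => zero_le_one) t)
      (fun t => indicator_le_self' (f := fun _ : ℝ => (1 : ℝ)) (fun _ _ => zero_le_one) t)
      (fun t ht => indicator_of_notMem ht _)
    have e1 : ∫ t, (I c h).indicator (fun _ => (1 : ℝ)) t = 2 * h := by
      rw [integral_indicator hJm]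
      simp only [integral_const, smul_eq_mul, mul_one]
      unfold I
      rw [measureReal_restrict_apply_univ, Real.volume_real_Icc_of_le (by linarith)]
      ring
    have e2 : ∫⁻ x in I c h, ENNReal.ofReal ((I c h).indicator (fun _ => (1 : ℝ)) x ^ p * U x) =
        UJ := by
      apply setLIntegral_congr_fun hJm
      intro x hx
      simp only
      rw [indicator_of_mem hx, Real.one_rpow, one_mul]
    rw [e1, e2, show 2 * h / h = 2 by field_simp, ← hκ] at h1
    calc Aint = ENNReal.ofReal κ⁻¹ * (ENNReal.ofReal κ * Aint) := by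
          rw [← mul_assoc, ← ENNReal.ofReal_mul (by positivity), inv_mul_cancel₀ hκ0.ne',
            ENNReal.ofReal_one, one_mul]
      _ ≤ ENNReal.ofReal κ⁻¹ * (C * UJ) := mul_le_mul_right h1 _
      _ = ((Real.toNNReal κ⁻¹ * C : ℝ≥0) : ℝ≥0∞) * UJ := by
          rw [← mul_assoc]; rfl
      _ ≤ _ := by
          apply mul_le_mul_left
          exact_mod_cast le_self_add
  · -- second part
    set s : ℝ := 1 / (p - 1) with hs
    have hs0 : 0 < s := by rw [hs]; apply div_pos one_pos; linarith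
    set U' : ℝ → ℝ := fun x => |hU.aestronglyMeasurable.mk U x| with hU'
    have hU'm : Measurable U' := hU.aestronglyMeasurable.stronglyMeasurable_mk.measurable.abs
    have hU'0 : ∀ x, 0 ≤ U' x := fun x => abs_nonneg _
    have hUU' : ∀ᵐ x, U x = U' x := by
      filter_upwards [hU.aestronglyMeasurable.ae_eq_mk] with x hx
      rw [hU']
      simp only
      rw [← hx, abs_of_nonneg (hU0 x)]
    have hv : ∀ (n : ℕ) (x : ℝ), 0 < U' x + 1 / ((n : ℝ) + 1) := fun n x => by
      have := hU'0 x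
      positivity
    set fn : ℕ → ℝ → ℝ := fun n => (I c h).indicator
      (fun x => (U' x + 1 / ((n : ℝ) + 1)) ^ (-s)) with hfn
    have hfm : ∀ n, Measurable (fn n) := fun n =>
      ((hU'm.add_const _).pow_const _).indicator hJm
    have hfn0 : ∀ n t, 0 ≤ fn n t := fun n t =>
      indicator_nonneg (fun x _ => (Real.rpow_pos_of_pos (hv n x) _).le) t
    have hfnM : ∀ n t, fn n t ≤ (1 / ((n : ℝ) + 1)) ^ (-s) := by
      intro n t
      by_cases ht : t ∈ I c h
      · simp only [hfn, indicator_of_mem ht]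
        apply Real.rpow_le_rpow_of_nonpos (by positivity) _ (by linarith)
        have := hU'0 t
        linarith
      · simp only [hfn, indicator_of_notMem ht]
        positivity
    have hfns : ∀ n t, t ∉ I c h → fn n t = 0 := fun n t ht => indicator_of_notMem ht _
    -- the integral
    have hE : ∀ n, ∫⁻ x in I c h, ENNReal.ofReal (fn n x) = ENNReal.ofReal (∫ x, fn n x) := by
      intro n
      rw [ofReal_integral_eq_lintegral_ofReal (f_int c h _ (fn n) (hfm n) (hfn0 n) (hfnM n)
        (hfns n)) (ae_of_all _ (hfn0 n)), ← lintegral_indicator hJm]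
      apply lintegral_congr
      intro x
      by_cases hx : x ∈ I c h
      · rw [indicator_of_mem hx]
      · rw [indicator_of_notMem hx, hfns n x hx, ENNReal.ofReal_zero]
    have hpow : ∀ n, ∫⁻ x in I c h, ENNReal.ofReal (fn n x ^ p * U x) ≤
        ENNReal.ofReal (∫ x, fn n x) := by
      intro n
      rw [← hE n]
      apply lintegral_mono_ae
      filter_upwards [ae_restrict_of_ae hUU', ae_restrict_mem hJm] with x hx hxJ
      apply ENNReal.ofReal_le_ofReal
      simp only [hfn, indicator_of_mem hxJ]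
      rw [hx]
      set v := U' x + 1 / ((n : ℝ) + 1) with hvd
      have hv0 : 0 < v := hv n x
      have h1 : U' x ≤ v := by
        rw [hvd]
        have : (0 : ℝ) < 1 / ((n : ℝ) + 1) := by positivity
        linarith
      have h2 : (v ^ (-s)) ^ p * v = v ^ (-s) := by
        rw [← Real.rpow_mul hv0.le]
        nth_rewrite 2 [← Real.rpow_one v]
        rw [← Real.rpow_add hv0]
        congr 1
        rw [hs]
        have : p - 1 ≠ 0 := by linarith
        field_simp
        ring
      calc (v ^ (-s)) ^ p * U' x ≤ (v ^ (-s)) ^ p * v :=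
            mul_le_mul_of_nonneg_left h1 (by positivity)
        _ = v ^ (-s) := h2
    have hlow : ENNReal.ofReal (2 ^ (-(l * p / 2))) * UJ ≤ Aint := by
      rw [hUJ, ← lintegral_const_mul' _ _ ENNReal.ofReal_ne_top, hAint]
      refine le_trans ?_ (setLIntegral_le_lintegral (I c h) _)
      refine setLIntegral_mono' hJm fun x hx => ?_
      rw [← ENNReal.ofReal_mul (by positivity)]
      apply ENNReal.ofReal_le_ofReal
      apply mul_le_mul_of_nonneg_right _ (hU0 x)
      rw [Real.rpow_neg (by norm_num), ← Real.inv_rpow (by norm_num)]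
      apply Real.rpow_le_rpow (by norm_num) _ (by positivity)
      have hx' : |x - c| ≤ h := by
        unfold I at hx
        rw [abs_le]; constructor <;> linarith [hx.1, hx.2]
      rw [inv_eq_one_div, div_le_div_iff₀ (by norm_num) (by positivity)]
      linarith
    have hkey : ∀ n, UJ * (∫⁻ x in I c h, ENNReal.ofReal (fn n x)) ^ (p - 1) ≤
        ((Real.toNNReal κ' * C : ℝ≥0) : ℝ≥0∞) * ENNReal.ofReal h ^ p := by
      intro n
      rw [hE n]
      set F := ∫ x, fn n x with hF
      have hF0 : 0 ≤ F := integral_nonneg (hfn0 n)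
      rcases eq_or_lt_of_le hF0 with h0 | hFpos
      · rw [← h0, ENNReal.ofReal_zero, ENNReal.zero_rpow_of_pos (by linarith), mul_zero]
        exact bot_le
      · have h1 := hdag _ (fn n) hh (hfm n) (hfn0 n) (hfnM n) (hfns n)
        rw [← hF] at h1
        have h2 : ENNReal.ofReal (c1 l ^ p * (F / h) ^ p) *
            (ENNReal.ofReal (2 ^ (-(l * p / 2))) * UJ) ≤ C * ENNReal.ofReal F :=
          (mul_le_mul_right hlow _).trans (h1.trans (mul_le_mul_right (hpow n) _))
        have h3 := mul_le_mul_right h2 (ENNReal.ofReal (F⁻¹ * κ' * h ^ p))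
        calc UJ * ENNReal.ofReal F ^ (p - 1) =
              ENNReal.ofReal (F⁻¹ * κ' * h ^ p) * (ENNReal.ofReal (c1 l ^ p * (F / h) ^ p) *
                (ENNReal.ofReal (2 ^ (-(l * p / 2))) * UJ)) := by
              rw [← mul_assoc, ← mul_assoc, ← ENNReal.ofReal_mul (by positivity),
                ← ENNReal.ofReal_mul (by positivity), ENNReal.ofReal_rpow_of_pos hFpos, mul_comm]
              congr 2
              rw [hκ', Real.div_rpow hF0 hh.le, Real.rpow_sub hFpos, Real.rpow_one,
                Real.rpow_neg (by norm_num)]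
              field_simp
          _ ≤ ENNReal.ofReal (F⁻¹ * κ' * h ^ p) * (C * ENNReal.ofReal F) := h3
          _ = ((Real.toNNReal κ' * C : ℝ≥0) : ℝ≥0∞) * ENNReal.ofReal h ^ p := by
              rw [ENNReal.ofReal_rpow_of_pos hh, ENNReal.coe_mul]
              change _ = ENNReal.ofReal κ' * C * ENNReal.ofReal (h ^ p)
              have e5 : F⁻¹ * κ' * h ^ p * F = κ' * h ^ p := by field_simp
              rw [mul_comm (C : ℝ≥0∞), ← mul_assoc, ← ENNReal.ofReal_mul (by positivity), e5,
                ENNReal.ofReal_mul hκ'0.le]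
              ring
    have hlim : Tendsto (fun n => ∫⁻ x in I c h, ENNReal.ofReal (fn n x)) atTop
        (𝓝 (∫⁻ x in I c h, ENNReal.ofReal (U' x) ^ (-s))) := by
      apply lintegral_tendsto_of_tendsto_of_monotone
      · exact fun n => (hfm n).ennreal_ofReal.aemeasurable
      · filter_upwards [ae_restrict_mem hJm] with x hxJ
        intro n m hnm
        simp only [hfn, indicator_of_mem hxJ]
        apply ENNReal.ofReal_le_ofReal
        apply Real.rpow_le_rpow_of_nonpos (hv m x) _ (by linarith)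
        have : 1 / ((m : ℝ) + 1) ≤ 1 / ((n : ℝ) + 1) := by
          apply one_div_le_one_div_of_le (by positivity)
          have : (n : ℝ) ≤ m := by exact_mod_cast hnm
          linarith
        linarith
      · filter_upwards [ae_restrict_mem hJm] with x hxJ
        have h1 : ∀ n, ENNReal.ofReal (fn n x) =
            ENNReal.ofReal (U' x + 1 / ((n : ℝ) + 1)) ^ (-s) := by
          intro n
          simp only [hfn, indicator_of_mem hxJ]
          rw [ENNReal.ofReal_rpow_of_pos (hv n x)]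
        simp_rw [h1]
        have h2 : Tendsto (fun n : ℕ => ENNReal.ofReal (U' x + 1 / ((n : ℝ) + 1))) atTop
            (𝓝 (ENNReal.ofReal (U' x))) := by
          apply ENNReal.tendsto_ofReal
          have := (tendsto_const_nhds (x := U' x)).add tendsto_one_div_add_atTop_nhds_zero_nat
          simpa using this
        exact (ENNReal.continuous_rpow_const.tendsto _).comp h2
    have hcongr : ∫⁻ x in I c h, ENNReal.ofReal (U x) ^ (-s) =
        ∫⁻ x in I c h, ENNReal.ofReal (U' x) ^ (-s) := by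
      apply lintegral_congr_ae
      filter_upwards [ae_restrict_of_ae hUU'] with x hx
      rw [hx]
    rw [hcongr]
    have hfinal : UJ * (∫⁻ x in I c h, ENNReal.ofReal (U' x) ^ (-s)) ^ (p - 1) ≤
        ((Real.toNNReal κ' * C : ℝ≥0) : ℝ≥0∞) * ENNReal.ofReal h ^ p := by
      refine le_of_tendsto (ENNReal.Tendsto.const_mul
        ((ENNReal.continuous_rpow_const.tendsto _).comp hlim) (Or.inr hUJfin)) ?_
      exact Eventually.of_forall hkey
    refine hfinal.trans ?_
    apply mul_le_mul_left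
    exact_mod_cast le_add_self

end Pool.Agent.K3h6.GL
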